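import Pool.Agent.H377R4.Crit

set_option autoImplicit false

namespace Pool.Agent.Results.MP_78b003_nt.LargeUnit

open Pool.Agent.H377R4

theorem result :
    ∀ p : ℕ, p.Prime → 5 ≤ p →
    ∀ d : ℕ, (d = p ∨ d = 2 * p) → 125 ≤ d →
    ∀ t : ℝ, t ^ 3 = (d : ℝ) →
    ∀ η : ℝ,
      ((∃ q0 q1 q2 : ℚ, η = (q0 : ℝ) + (q1 : ℝ) * t + (q2 : ℝ) * t ^ 2) ∧
        IsIntegral ℤ η ∧ IsIntegral ℤ η⁻¹) →
      1 < η →
    ∀ a b c : ℤ, η = ((a : ℝ) + (b : ℝ) * t + (c : ℝ) * t ^ 2) / 3 →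
      (p : ℤ) ∣ b → (p : ℝ) * t - 5 / 2 < η ∧ (p % 3 = 2 → (p : ℝ) ^ 2 < η) := by
  intro p hp h5 d hd hbig t ht η hη h1 a b c habc hb
  have hpi : Prime (p : ℤ) := Nat.prime_iff_prime_int.1 hp
  have hη' : IsU t η := hη
  obtain ⟨a', b', c', hab, hN, ha, hb', hc'⟩ := unit_close p hp h5 d hd t ht hη' h1.le
  obtain ⟨ea, eb, ec⟩ := coords_unique p hp h5 d hd t ht a b c a' b' c' (by
    have : ((a : ℝ) + b * t + c * t ^ 2) / 3 = ((a' : ℝ) + b' * t + c' * t ^ 2) / 3 := by rw [← habc, hab]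
    linarith)
  subst ea eb ec
  have hlow := unit_lower p hp h5 d hd t ht hbig hη' h1
  have htp := t_pos p hp h5 d hd t ht
  have ht5 : 5 ≤ t := by
    by_contra hlt
    have hlt' : t < 5 := not_le.1 hlt
    have : t ^ 3 < 5 ^ 3 := pow_lt_pow_left₀ hlt' htp.le (by norm_num)
    rw [ht] at this
    have h125 : (125 : ℝ) ≤ d := by exact_mod_cast hbig
    linarith
  have hη22 : 22 < η := by nlinarith
  rw [abs_lt] at ha hb' hc'
  have hbpos : 0 < b := by
    have : (0 : ℝ) < b * t := by linarith [hb'.1]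
    have : (0 : ℝ) < b := (pos_iff_pos_of_mul_pos this).2 htp
    exact_mod_cast this
  refine ⟨?_, ?_⟩
  · have h2 : (p : ℤ) ≤ b := Int.le_of_dvd hbpos hb
    have h3 : (p : ℝ) ≤ b := by exact_mod_cast h2
    have h4 : (p : ℝ) * t ≤ b * t := by nlinarith
    linarith [hb'.2]
  · intro hmod
    obtain ⟨e, he⟩ : (p : ℤ) ∣ (d : ℤ) := by
      rcases hd with h | h
      · rw [h]
      · rw [h]; push_cast; exact Dvd.intro_left _ rfl
    obtain ⟨f, hf⟩ := hb
    have hdiv : ((p : ℤ) ^ 2) ∣ (a - 3) * (a ^ 2 + 3 * a + 9) := by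
      refine ⟨-(e * p ^ 2 * f ^ 3 + e ^ 2 * c ^ 3 - 3 * e * a * f * c), ?_⟩
      have : (a - 3) * (a ^ 2 + 3 * a + 9) = a ^ 3 - 27 := by ring
      rw [this]
      rw [hf, he] at hN
      linear_combination hN
    have hp3 : ¬ (p : ℤ) ∣ 3 := by
      intro h
      have := Int.le_of_dvd (by norm_num) h
      omega
    have : Fact p.Prime := ⟨hp⟩
    -- a ≡ 3 mod p
    have hcube : ((a : ZMod p)) ^ 3 = (3 : ZMod p) ^ 3 := by
      have h6 : (p : ℤ) ∣ a ^ 3 - 27 := by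
        have : a ^ 3 - 27 = (a - 3) * (a ^ 2 + 3 * a + 9) := by ring
        rw [this]
        exact (dvd_pow_self _ (by norm_num)).trans hdiv
      have h7 : ((a ^ 3 - 27 : ℤ) : ZMod p) = 0 := (ZMod.intCast_zmod_eq_zero_iff_dvd _ _).2 h6
      push_cast at h7
      linear_combination h7
    have h3ne : (3 : ZMod p) ≠ 0 := by
      intro h
      apply hp3
      have : ((3 : ℤ) : ZMod p) = 0 := by exact_mod_cast h
      exact (ZMod.intCast_zmod_eq_zero_iff_dvd _ _).1 this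
    have ha3 : (a : ZMod p) = 3 := by
      set x : ZMod p := (a : ZMod p) / 3 with hx
      have hx3 : x ^ 3 = 1 := by rw [hx, div_pow, hcube, div_self (pow_ne_zero _ h3ne)]
      have hxne : x ≠ 0 := by
        intro h; rw [h] at hx3; norm_num at hx3
      have h8 := ZMod.pow_card_sub_one_eq_one hxne
      obtain ⟨k, hk⟩ : ∃ k, p - 1 = 3 * k + 1 := ⟨(p - 2) / 3, by omega⟩
      rw [hk, pow_succ, pow_mul, hx3, one_pow, one_mul] at h8
      rw [hx, div_eq_iff h3ne, one_mul] at h8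
      exact h8
    have hnd : ¬ (p : ℤ) ∣ (a ^ 2 + 3 * a + 9) := by
      intro h
      have h9 : ((a ^ 2 + 3 * a + 9 : ℤ) : ZMod p) = 0 := (ZMod.intCast_zmod_eq_zero_iff_dvd _ _).2 h
      push_cast at h9
      rw [ha3] at h9
      have h10 : (3 : ZMod p) ^ 3 = 0 := by linear_combination h9
      exact h3ne (pow_eq_zero_iff (by norm_num) |>.1 h10)
    have hcop : IsCoprime ((p : ℤ) ^ 2) (a ^ 2 + 3 * a + 9) :=
      (((Prime.coprime_iff_not_dvd hpi).2 hnd).pow_left)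
    have hdiv2 : ((p : ℤ) ^ 2) ∣ a - 3 := hcop.dvd_of_dvd_mul_right hdiv
    have ha19 : (19 : ℝ) < a := by linarith [ha.1]
    have ha3' : 0 < a - 3 := by
      have : (19 : ℤ) < a := by exact_mod_cast ha19
      omega
    have h11 : (p : ℤ) ^ 2 ≤ a - 3 := Int.le_of_dvd ha3' hdiv2
    have h12 : (p : ℝ) ^ 2 ≤ a - 3 := by exact_mod_cast h11
    linarith [ha.2]

end Pool.Agent.Results.MP_78b003_nt.LargeUnit
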