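import Pool.Agent.H377R4.Crit

set_option autoImplicit false

namespace Pool.Agent.Results.MP_78b003_nt.ShortUnits

open Pool.Agent.H377R4

theorem result :
    ∀ p : ℕ, p.Prime → 5 ≤ p →
    ∀ d : ℕ, (d = p ∨ d = 2 * p) →
    (∃ x y : ℤ, ¬ (p : ℤ) ∣ x ∧ ¬ (p : ℤ) ∣ y ∧ (x ^ 3 + d * y ^ 3) ∣ 3 * x * y) →
    ∀ t : ℝ, t ^ 3 = (d : ℝ) →
    ∀ η : ℝ,
      ((∃ q0 q1 q2 : ℚ, η = (q0 : ℝ) + (q1 : ℝ) * t + (q2 : ℝ) * t ^ 2) ∧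
        IsIntegral ℤ η ∧ IsIntegral ℤ η⁻¹) →
      1 < η →
      (∀ u : ℝ,
        ((∃ q0 q1 q2 : ℚ, u = (q0 : ℝ) + (q1 : ℝ) * t + (q2 : ℝ) * t ^ 2) ∧
          IsIntegral ℤ u ∧ IsIntegral ℤ u⁻¹) →
        1 < u → η ≤ u) →
    ∀ a b c : ℤ, η = ((a : ℝ) + (b : ℝ) * t + (c : ℝ) * t ^ 2) / 3 →
      ¬ ((p : ℤ) ∣ b) := by
  intro p hp h5 d hd ⟨x, y, hx, hy, hdiv⟩ t ht η hη h1 hmin a b c habc
  have hpi : Prime (p : ℤ) := Nat.prime_iff_prime_int.1 hp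
  obtain ⟨w, hw⟩ := hdiv
  have hp3 : ¬ (p : ℤ) ∣ 3 := by
    intro h
    have := Int.le_of_dvd (by norm_num) h
    omega
  have h3xy : ¬ (p : ℤ) ∣ 3 * x * y := by
    intro h
    rcases hpi.dvd_or_dvd h with h | h
    · rcases hpi.dvd_or_dvd h with h | h
      · exact hp3 h
      · exact hx h
    · exact hy h
  have hpw : ¬ (p : ℤ) ∣ w := fun h => h3xy (by rw [hw]; exact h.mul_left _)
  have hg1 : ¬ (p : ℤ) ∣ x * w := fun h => (hpi.dvd_or_dvd h).elim hx hpw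
  refine crit p hp h5 d hd t ht 1 (x * w) (y * w) ?_ hg1 η hη h1 hmin a b c habc
  linear_combination (-(d : ℤ) * w ^ 2) * hw

end Pool.Agent.Results.MP_78b003_nt.ShortUnits
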